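import Mathlib
import Pool.Agent.Helper46.R.J1
import Pool.Agent.Helper827.Chr.Core

set_option autoImplicit false

namespace Pool.Agent.Results.MP_cf191d_co.NeverAttained

open Finset

/-- `F` is `H`-intersecting: for all `G₁, G₂ ∈ F` (possibly equal) the graph `G₁ ∩ G₂` has a
(not necessarily induced) subgraph isomorphic to `H`. -/
def HIntersecting {W : Type} (H : SimpleGraph W) {n : ℕ} (F : Finset (SimpleGraph (Fin n))) : Prop :=
  ∀ G₁ ∈ F, ∀ G₂ ∈ F, H.IsContained (G₁ ⊓ G₂)

/-- `M_H(n)`: the largest size of an `H`-intersecting family of graphs on `[n]`. -/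
noncomputable def maxFamily {W : Type} (H : SimpleGraph W) (n : ℕ) : ℕ :=
  sSup {m : ℕ | ∃ F : Finset (SimpleGraph (Fin n)), HIntersecting H F ∧ F.card = m}

/-- An intersecting family of subsets of `M` has at most half of all subsets. -/
lemma inter_half {α : Type*} [DecidableEq α] (M : Finset α) (E : Finset (Finset α)) (hE : ∀ X ∈ E, X ⊆ M)
    (hI : ∀ X ∈ E, ∀ Y ∈ E, (X ∩ Y).Nonempty) : E.card * 2 ≤ 2 ^ M.card := by
  have hinj : Set.InjOn (fun X : Finset α => M \ X) (E : Set (Finset α)) := by
    intro X hX Y hY h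
    simp only at h
    have := congrArg (fun Z => M \ Z) h
    simp only [Finset.sdiff_sdiff_eq_self (hE X hX), Finset.sdiff_sdiff_eq_self (hE Y hY)] at this
    exact this
  have hdis : Disjoint E (E.image fun X => M \ X) := by
    rw [Finset.disjoint_left]
    intro X hX hX'
    obtain ⟨Y, hY, rfl⟩ := mem_image.1 hX'
    obtain ⟨x, hx⟩ := hI _ hX _ hY
    rw [mem_inter, mem_sdiff] at hx
    exact hx.1.2 hx.2
  have hsub : E ∪ (E.image fun X => M \ X) ⊆ M.powerset := by
    intro X hX
    rw [mem_powerset]
    rcases mem_union.1 hX with h | h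
    · exact hE X h
    · obtain ⟨Y, hY, rfl⟩ := mem_image.1 h
      exact sdiff_subset
  have h := card_le_card hsub
  rw [card_union_of_disjoint hdis, card_image_of_injOn hinj, card_powerset] at h
  omega

/-- A family of subsets of `M` any two members of which share two elements is smaller than half. -/
lemma inter_two {α : Type*} [DecidableEq α] (M : Finset α) (E : Finset (Finset α)) (hE : ∀ X ∈ E, X ⊆ M)
    (hI : ∀ X ∈ E, ∀ Y ∈ E, 2 ≤ (X ∩ Y).card) : E.card * 2 < 2 ^ M.card := by
  have hI' : ∀ X ∈ E, ∀ Y ∈ E, (X ∩ Y).Nonempty := by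
    intro X hX Y hY
    rw [← card_pos]
    have := hI X hX Y hY
    omega
  rcases lt_or_eq_of_le (inter_half M E hE hI') with h | h
  · exact h
  exfalso
  -- every subset of `M` or its complement is in `E`
  have hall : ∀ X, X ⊆ M → X ∈ E ∨ M \ X ∈ E := by
    intro X hX
    by_contra hcon
    push Not at hcon
    have hinj : Set.InjOn (fun X : Finset α => M \ X) (E : Set (Finset α)) := by
      intro X hX Y hY h
      simp only at h
      have := congrArg (fun Z => M \ Z) h
      simp only [Finset.sdiff_sdiff_eq_self (hE X hX), Finset.sdiff_sdiff_eq_self (hE Y hY)] at this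
      exact this
    have hdis : Disjoint E (E.image fun X => M \ X) := by
      rw [Finset.disjoint_left]
      intro X hX hX'
      obtain ⟨Y, hY, rfl⟩ := mem_image.1 hX'
      obtain ⟨x, hx⟩ := hI' _ hX _ hY
      rw [mem_inter, mem_sdiff] at hx
      exact hx.1.2 hx.2
    have hXn : X ∉ E ∪ (E.image fun X => M \ X) := by
      rw [mem_union, not_or]
      refine ⟨hcon.1, ?_⟩
      intro hh
      obtain ⟨Y, hY, rfl⟩ := mem_image.1 hh
      rw [Finset.sdiff_sdiff_eq_self (hE Y hY)] at hcon
      exact hcon.2 hY
    have hsub : E ∪ (E.image fun X => M \ X) ⊆ M.powerset.erase X := by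
      intro Z hZ
      rw [mem_erase]
      refine ⟨fun e => hXn (e ▸ hZ), ?_⟩
      rw [mem_powerset]
      rcases mem_union.1 hZ with h | h
      · exact hE Z h
      · obtain ⟨Y, hY, rfl⟩ := mem_image.1 h
        exact sdiff_subset
    have h' := card_le_card hsub
    rw [card_union_of_disjoint hdis, card_image_of_injOn hinj,
      card_erase_of_mem (mem_powerset.2 hX), card_powerset] at h'
    have : 0 < 2 ^ M.card := by positivity
    omega
  -- a minimal member
  have hne : E.Nonempty := by
    rw [← card_pos]
    have : 0 < 2 ^ M.card := by positivity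
    omega
  obtain ⟨S, hS, hmin⟩ := exists_min_image E card hne
  have hS2 := hI S hS S hS
  rw [inter_self] at hS2
  obtain ⟨x, hx⟩ : S.Nonempty := by rw [← card_pos]; omega
  have h1 : S.erase x ∉ E := by
    intro hcon
    have := hmin _ hcon
    rw [card_erase_of_mem hx] at this
    omega
  rcases hall (S.erase x) ((erase_subset x S).trans (hE S hS)) with h2 | h2
  · exact h1 h2
  · have h3 := hI S hS _ h2
    have h4 : S ∩ (M \ S.erase x) ⊆ {x} := by
      intro y hy
      rw [mem_inter, mem_sdiff, mem_erase] at hy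
      rw [mem_singleton]
      by_contra hne
      exact hy.2.2 ⟨hne, hy.1⟩
    have h5 := card_le_card h4
    rw [card_singleton] at h5
    omega

section basics
open Classical

variable {n : ℕ}

/-- the edge set of a graph -/
noncomputable def ed (G : SimpleGraph (Fin n)) : Finset (Sym2 (Fin n)) := G.edgeFinset

lemma mem_ed {G : SimpleGraph (Fin n)} {a b : Fin n} : s(a, b) ∈ ed G ↔ G.Adj a b := by
  unfold ed; simp

lemma ed_inj : Function.Injective (ed : SimpleGraph (Fin n) → Finset (Sym2 (Fin n))) := by
  intro G H h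
  ext a b
  rw [← mem_ed, ← mem_ed, h]

lemma ed_inf (G H : SimpleGraph (Fin n)) : ed (G ⊓ H) = ed G ∩ ed H := by
  ext e
  induction e with
  | _ a b => rw [mem_inter, mem_ed, mem_ed, mem_ed, SimpleGraph.inf_adj]

lemma ed_sub (G : SimpleGraph (Fin n)) : ed G ⊆ ed ⊤ := by
  intro e
  induction e with
  | _ a b => rw [mem_ed, mem_ed]; exact fun h => h.ne

lemma card_ed (G : SimpleGraph (Fin n)) : (ed G).card = Nat.card G.edgeSet := by
  unfold ed
  rw [Nat.card_eq_fintype_card, SimpleGraph.edgeFinset_card]

lemma card_ed_top : (ed (⊤ : SimpleGraph (Fin n))).card = n.choose 2 := by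
  have h := SimpleGraph.card_edgeFinset_top_eq_card_choose_two (V := Fin n)
  rw [Fintype.card_fin, SimpleGraph.edgeFinset_card, ← Nat.card_eq_fintype_card] at h
  rw [card_ed, h]

/-- pairs that are monochromatic under `c` -/
noncomputable def mono {r : ℕ} (c : Fin n → Fin r) : Finset (Sym2 (Fin n)) :=
  (ed ⊤).filter fun e => (e.map c).IsDiag

lemma mem_mono {r : ℕ} {c : Fin n → Fin r} {a b : Fin n} :
    s(a, b) ∈ mono c ↔ a ≠ b ∧ c a = c b := by
  unfold mono
  rw [mem_filter, mem_ed]
  simp

end basics

open Classical in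
/-- The strict inequality for families whose pairwise intersections are not `r`-colourable. -/
theorem strict {n r : ℕ} (hr : 2 ≤ r) (F : Finset (SimpleGraph (Fin n)))
    (hF : ∀ G ∈ F, ∀ H ∈ F, ¬ (G ⊓ H).Colorable r) : F.card * 2 ^ r < 2 ^ (n.choose 2) := by
  rcases F.eq_empty_or_nonempty with rfl | ⟨G0, hG0⟩
  · simp
  -- `n` is at least `3`
  have hn : r < n := by
    by_contra hcon
    push Not at hcon
    apply hF G0 hG0 G0 hG0
    have : (G0 ⊓ G0).Colorable n := by
      have := SimpleGraph.colorable_of_fintype (G0 ⊓ G0)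
      rwa [Fintype.card_fin] at this
    exact this.mono hcon
  set E := F.image ed with hE
  have hcE : E.card = F.card := card_image_of_injective _ ed_inj
  set ι := {c : Fin n → Fin r // ∃ a b, c a ≠ c b} with hι
  have hconst : (univ.filter fun c : Fin n → Fin r => ¬ ∃ a b, c a ≠ c b).card = r := by
    have h1 : (univ.filter fun c : Fin n → Fin r => ¬ ∃ a b, c a ≠ c b)
        = (univ : Finset (Fin r)).image (fun x => fun _ => x) := by
      ext c
      simp only [mem_filter, mem_univ, true_and, mem_image]
      constructor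
      · intro h
        push Not at h
        exact ⟨c ⟨0, by omega⟩, by funext i; exact h _ _⟩
      · rintro ⟨x, rfl⟩
        push Not
        intro _ _; rfl
    rw [h1, card_image_of_injective]
    · simp
    · intro x y h
      exact congrFun h ⟨0, by omega⟩
  have hcι : Fintype.card ι + r = r ^ n := by
    have h1 : Fintype.card ι = (univ.filter fun c : Fin n → Fin r => ∃ a b, c a ≠ c b).card :=
      Fintype.card_subtype _
    have h2 := Finset.card_filter_add_card_filter_not (s := (univ : Finset (Fin n → Fin r)))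
      (fun c : Fin n → Fin r => ∃ a b, c a ≠ c b)
    rw [hconst, ← h1, card_univ, Fintype.card_fun, Fintype.card_fin, Fintype.card_fin] at h2
    exact h2
  set k := r ^ (n - 1) - r with hk
  have hrn : r * r ≤ r ^ (n - 1) := by
    calc r * r = r ^ 2 := by ring
      _ ≤ r ^ (n - 1) := Nat.pow_le_pow_right (by omega) (by omega)
  have hrr : 2 * r ≤ r * r := Nat.mul_le_mul_right r hr
  have hkpos : 0 < k := by omega
  -- every pair is monochromatic in exactly `k` of the non-constant colourings
  have hcount : ∀ e ∈ ed (⊤ : SimpleGraph (Fin n)),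
      (univ.filter fun i : ι => e ∈ mono i.1).card = k := by
    intro e
    induction e with
    | _ a b =>
      intro he
      rw [mem_ed] at he
      have hab : a ≠ b := he
      have h1 : (univ.filter fun i : ι => s(a, b) ∈ mono i.1).card
          = (univ.filter fun c : Fin n → Fin r => (∃ x y, c x ≠ c y) ∧ c a = c b).card := by
        refine Finset.card_bij (fun i _ => i.1) ?_ ?_ ?_
        · intro i hi
          rw [mem_filter, mem_mono] at hi
          rw [mem_filter]
          exact ⟨mem_univ _, i.2, hi.2.2⟩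
        · intro i _ j _ h
          exact Subtype.ext h
        · intro c hc
          rw [mem_filter] at hc
          exact ⟨⟨c, hc.2.1⟩, by rw [mem_filter, mem_mono]; exact ⟨mem_univ _, hab, hc.2.2⟩, rfl⟩
      have h2 := Finset.card_filter_add_card_filter_not
        (s := (univ.filter fun c : Fin n → Fin r => c a = c b))
        (fun c : Fin n → Fin r => ∃ x y, c x ≠ c y)
      rw [Chr827.card_mono n r a b hab, filter_filter, filter_filter] at h2
      have h3 : (univ.filter fun c : Fin n → Fin r => c a = c b ∧ ¬ ∃ x y, c x ≠ c y)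
          = (univ.filter fun c : Fin n → Fin r => ¬ ∃ a b, c a ≠ c b) := by
        ext c
        simp only [mem_filter, mem_univ, true_and]
        constructor
        · exact fun h => h.2
        · intro h
          refine ⟨?_, h⟩
          push Not at h
          exact h a b
      have h4 : (univ.filter fun c : Fin n → Fin r => c a = c b ∧ ∃ x y, c x ≠ c y)
          = (univ.filter fun c : Fin n → Fin r => (∃ x y, c x ≠ c y) ∧ c a = c b) := by
        ext c
        simp only [mem_filter, mem_univ, true_and]
        tauto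
      rw [h3, hconst, h4] at h2
      rw [h1]
      omega
  -- Shearer's lemma
  have hsh := Pool.Agent.Helper46.R.J1.shearer E (fun i : ι => mono i.1) k hkpos (ed ⊤)
    (by
      intro B hB
      obtain ⟨G, _, rfl⟩ := mem_image.1 hB
      exact ed_sub G)
    (fun x hx => (hcount x hx).ge)
  -- the traces are intersecting
  have htr : ∀ i : ι, (E.image fun B => B ∩ mono i.1).card * 2 ≤ 2 ^ (mono i.1).card := by
    intro i
    apply inter_half
    · intro X hX
      obtain ⟨B, _, rfl⟩ := mem_image.1 hX
      exact inter_subset_right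
    · intro X hX Y hY
      obtain ⟨B, hB, rfl⟩ := mem_image.1 hX
      obtain ⟨C, hC, rfl⟩ := mem_image.1 hY
      obtain ⟨G, hG, rfl⟩ := mem_image.1 hB
      obtain ⟨H, hH, rfl⟩ := mem_image.1 hC
      by_contra hcon
      rw [not_nonempty_iff_eq_empty] at hcon
      apply hF G hG H hH
      refine ⟨SimpleGraph.Coloring.mk i.1 ?_⟩
      intro a b hab heq
      have h1 : s(a, b) ∈ (∅ : Finset (Sym2 (Fin n))) := by
        rw [← hcon, mem_inter, mem_inter, mem_inter, mem_ed, mem_ed, mem_mono]
        exact ⟨⟨hab.1, hab.ne, heq⟩, hab.2, hab.ne, heq⟩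
      exact absurd h1 (notMem_empty _)
  -- double counting of monochromatic pairs
  have hdc : ∑ i : ι, (mono i.1).card = n.choose 2 * k := by
    have h1 : ∀ i : ι, (mono i.1).card = ∑ e ∈ ed (⊤ : SimpleGraph (Fin n)), if e ∈ mono i.1 then 1 else 0 := by
      intro i
      rw [Finset.sum_boole, Nat.cast_id]
      congr 1
      ext e
      rw [mem_filter]
      constructor
      · intro h
        refine ⟨?_, h⟩
        unfold mono at h
        exact (mem_filter.1 h).1
      · exact fun h => h.2
    simp_rw [h1]
    rw [sum_comm]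
    have h2 : ∀ e ∈ ed (⊤ : SimpleGraph (Fin n)), ∑ i : ι, (if e ∈ mono i.1 then 1 else 0) = k := by
      intro e he
      rw [Finset.sum_boole, Nat.cast_id]
      exact hcount e he
    rw [sum_congr rfl h2, sum_const, card_ed_top, smul_eq_mul]
  have hfin : E.card ^ k * 2 ^ (Fintype.card ι) ≤ 2 ^ (n.choose 2 * k) := by
    calc E.card ^ k * 2 ^ (Fintype.card ι)
        ≤ (∏ i : ι, (E.image fun B => B ∩ mono i.1).card) * 2 ^ (Fintype.card ι) :=
          Nat.mul_le_mul_right _ hsh
      _ = ∏ i : ι, ((E.image fun B => B ∩ mono i.1).card * 2) := by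
          rw [prod_mul_distrib, prod_const, card_univ]
      _ ≤ ∏ i : ι, 2 ^ (mono i.1).card := prod_le_prod' fun i _ => htr i
      _ = 2 ^ (n.choose 2 * k) := by rw [prod_pow_eq_pow_sum, hdc]
  rw [← hcE]
  by_contra hcon
  push Not at hcon
  have hpos : 0 < E.card := by
    rw [hcE]; exact card_pos.2 ⟨G0, hG0⟩
  have h1 : 2 ^ (n.choose 2 * k) ≤ E.card ^ k * 2 ^ (r * k) := by
    rw [pow_mul, pow_mul, ← mul_pow]
    exact Nat.pow_le_pow_left hcon k
  have h2 : E.card ^ k * 2 ^ (Fintype.card ι) ≤ E.card ^ k * 2 ^ (r * k) := hfin.trans h1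
  have h3 : 2 ^ (Fintype.card ι) ≤ 2 ^ (r * k) := Nat.le_of_mul_le_mul_left h2 (by positivity)
  have h4 : Fintype.card ι ≤ r * k := (Nat.pow_le_pow_iff_right (by norm_num)).1 h3
  have h5 : r * k + r * r = r ^ n := by
    rw [← mul_add, hk, Nat.sub_add_cancel (by omega), ← pow_succ']
    congr 1
    omega
  omega

open Classical in
/-- **Main theorem.** For every finite graph `H` with at least two edges and every `n`, the largest
size `M_H(n)` of an `H`-intersecting family of graphs on `[n]` is strictly smaller than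
`2^(C(n,2) - (χ(H) - 1))`. -/
theorem result {W : Type} [Fintype W] (H : SimpleGraph W) (hH : 2 ≤ H.edgeSet.ncard) (n : ℕ) :
    (maxFamily H n : ℝ) < (2 : ℝ) ^ ((n.choose 2 : ℝ) - ((H.chromaticNumber.toNat : ℝ) - 1)) := by
  -- a largest family
  have hne : {m : ℕ | ∃ F : Finset (SimpleGraph (Fin n)), HIntersecting H F ∧ F.card = m}.Nonempty :=
    ⟨0, ∅, fun G hG => absurd hG (Finset.notMem_empty G), Finset.card_empty⟩
  have hbdd : BddAbove {m : ℕ | ∃ F : Finset (SimpleGraph (Fin n)), HIntersecting H F ∧
      F.card = m} := by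
    refine ⟨Fintype.card (SimpleGraph (Fin n)), ?_⟩
    rintro m ⟨F, _, rfl⟩
    exact Finset.card_le_univ F
  obtain ⟨F, hF, hc⟩ := Nat.sSup_mem hne hbdd
  have hc' : maxFamily H n = F.card := hc.symm
  rw [hc']
  -- the chromatic number
  have hfin : H.chromaticNumber ≠ ⊤ :=
    SimpleGraph.chromaticNumber_ne_top_iff_exists.2 ⟨_, H.colorable_of_fintype⟩
  set t := H.chromaticNumber.toNat with ht
  have htc : (t : ℕ∞) = H.chromaticNumber := ENat.natCast_toNat hfin
  have hedge : H.edgeSet.Nonempty := by
    rw [Set.nonempty_iff_ne_empty]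
    intro h
    rw [h, Set.ncard_empty] at hH
    omega
  obtain ⟨e, he⟩ := hedge
  have ht2 : 2 ≤ t := by
    induction e with
    | _ a b =>
      have h1 := SimpleGraph.two_le_chromaticNumber_of_adj (G := H) (u := a) (v := b) he
      rw [← htc] at h1
      exact_mod_cast h1
  obtain ⟨r, hr⟩ : ∃ r, t = r + 1 := ⟨t - 1, by omega⟩
  have key : F.card * 2 ^ r < 2 ^ (n.choose 2) := by
    rcases Nat.lt_or_ge r 2 with h2 | h2
    · have hr1 : r = 1 := by omega
      subst hr1
      rw [pow_one, ← card_image_of_injective F ed_inj, ← card_ed_top]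
      apply inter_two
      · intro X hX
        obtain ⟨G, _, rfl⟩ := mem_image.1 hX
        exact ed_sub G
      · intro X hX Y hY
        obtain ⟨G, hG, rfl⟩ := mem_image.1 hX
        obtain ⟨G', hG', rfl⟩ := mem_image.1 hY
        obtain ⟨f⟩ := hF G hG G' hG'
        have h1 : 2 ≤ (ed (G ⊓ G')).card := by
          have h3 : Nat.card H.edgeSet ≤ Nat.card (G ⊓ G').edgeSet :=
            Nat.card_le_card_of_injective _ f.mapEdgeSet.injective
          rw [card_ed]
          exact hH.trans h3
        rw [ed_inf] at h1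
        exact h1
    · apply strict h2 F
      intro G hG G' hG' hcol
      obtain ⟨f⟩ := hF G hG G' hG'
      have h1 : H.Colorable r := hcol.of_hom f.toHom
      have h3 := h1.chromaticNumber_le
      rw [← htc] at h3
      have h4 : t ≤ r := by exact_mod_cast h3
      omega
  have h5 : (F.card : ℝ) * 2 ^ r < 2 ^ (n.choose 2) := by exact_mod_cast key
  have h6 : (2 : ℝ) ^ ((n.choose 2 : ℝ) - ((t : ℝ) - 1)) = 2 ^ (n.choose 2) / 2 ^ r := by
    rw [Real.rpow_sub (by norm_num), Real.rpow_natCast, hr]
    congr 1
    push_cast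
    rw [add_sub_cancel_right, Real.rpow_natCast]
  rw [h6, lt_div_iff₀ (by positivity)]
  exact h5

end Pool.Agent.Results.MP_cf191d_co.NeverAttained
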